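import Pool.Agent.N389.RB.AP

/-! # Corner-free sets inside sets with small boundary -/

set_option autoImplicit false

namespace Pool.Agent.N389.RB

open Finset hiding ext dens
open Function
open Pool.Agent.N381.AC (ext)
open Pool.Agent.Helper868.DHJ (LineFree dens pt ind av av_eq_sum density_hales_jewett)

/-- pairs of words and words of pairs -/
def wd (n : ℕ) : ((Fin n → ZMod 2) × (Fin n → ZMod 2)) ≃ (Fin n → ZMod 2 × ZMod 2) where
  toFun a i := (a.1 i, a.2 i)
  invFun w := (fun i => (w i).1, fun i => (w i).2)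
  left_inv _ := rfl
  right_inv _ := rfl

/-- corner-free sets of words -/
def CF {n : ℕ} (A : Finset (Fin n → ZMod 2 × ZMod 2)) : Prop :=
  ∀ (w : Fin n → ZMod 2 × ZMod 2) (z : Fin n → ZMod 2), w ∈ A → w + (fun i => (0, z i)) ∈ A →
    w + (fun i => (z i, 0)) ∈ A → z = 0

/-- corner-free sets of pairs -/
def CFree {n : ℕ} (A : Finset ((Fin n → ZMod 2) × (Fin n → ZMod 2))) : Prop :=
  ∀ x y z : Fin n → ZMod 2, (x, y) ∈ A → (x, y + z) ∈ A → (x + z, y) ∈ A → z = 0

/-- the boundary, for sets of pairs -/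
def bdp {n : ℕ} (F : Finset ((Fin n → ZMod 2) × (Fin n → ZMod 2))) : ℕ :=
  ((F ×ˢ ((univ : Finset (Fin n)) ×ˢ (univ : Finset (ZMod 2 × ZMod 2)))).filter
    fun q => (update q.1.1 q.2.1 q.2.2.1, update q.1.2 q.2.1 q.2.2.2) ∉ F).card

variable {n m : ℕ}

lemma cf_map {A : Finset ((Fin n → ZMod 2) × (Fin n → ZMod 2))} (hA : CFree A) :
    CF (A.map (wd n).toEmbedding) := by
  intro w z h1 h2 h3
  rw [mem_map_equiv] at h1 h2 h3
  have e2 : (wd n).symm (w + fun i => (0, z i)) = ((fun i => (w i).1), (fun i => (w i).2) + z) :=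
    Prod.ext (by funext i; simp [wd]) (by funext i; simp [wd])
  have e3 : (wd n).symm (w + fun i => (z i, 0)) = ((fun i => (w i).1) + z, (fun i => (w i).2)) :=
    Prod.ext (by funext i; simp [wd]) (by funext i; simp [wd])
  rw [e2] at h2
  rw [e3] at h3
  exact hA (fun i => (w i).1) (fun i => (w i).2) z h1 h2 h3

lemma cf_symm {B : Finset (Fin n → ZMod 2 × ZMod 2)} (hB : CF B) :
    CFree (B.map (wd n).symm.toEmbedding) := by
  intro x y z h1 h2 h3
  rw [mem_map_equiv, Equiv.symm_symm] at h1 h2 h3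
  refine hB (wd n (x, y)) z h1 ?_ ?_
  · convert h2 using 1
    funext i
    simp [wd]
  · convert h3 using 1
    funext i
    simp [wd]

lemma bdp_eq (F : Finset ((Fin n → ZMod 2) × (Fin n → ZMod 2))) :
    bdp F = bdy (F.map (wd n).toEmbedding) := by
  classical
  rw [bdp, bdy]
  have hup : ∀ (a : (Fin n → ZMod 2) × (Fin n → ZMod 2)) (i : Fin n) (s : ZMod 2 × ZMod 2),
      wd n (update a.1 i s.1, update a.2 i s.2) = update (wd n a) i s := by
    intro a i s
    funext l
    rcases eq_or_ne l i with rfl | h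
    · simp [wd]
    · simp [wd, h]
  refine card_nbij' (fun q => (wd n q.1, q.2)) (fun q => ((wd n).symm q.1, q.2)) ?_ ?_ ?_ ?_
  · rintro ⟨a, i, s⟩ hq
    rw [mem_coe, mem_filter, mem_product] at hq ⊢
    simp only at hq ⊢
    rw [← hup, mem_map_equiv, mem_map_equiv, Equiv.symm_apply_apply, Equiv.symm_apply_apply]
    exact ⟨⟨hq.1.1, by simp⟩, hq.2⟩
  · rintro ⟨w, i, s⟩ hq
    rw [mem_coe, mem_filter, mem_product] at hq ⊢
    simp only at hq ⊢
    obtain ⟨⟨h1, _⟩, h2⟩ := hq
    obtain ⟨a, rfl⟩ := (wd n).surjective w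
    rw [← hup, mem_map_equiv, Equiv.symm_apply_apply] at h2
    rw [mem_map_equiv, Equiv.symm_apply_apply] at h1
    rw [Equiv.symm_apply_apply]
    exact ⟨⟨h1, by simp⟩, h2⟩
  · rintro ⟨a, i, s⟩ _
    simp
  · rintro ⟨w, i, s⟩ _
    simp

lemma ext_pair (hm : 0 < m) (j : ℕ) (t : Fin m → ZMod 2 × ZMod 2) (z : Fin m → ZMod 2) :
    ext n hm j (t + fun i => (0, z i)) = ext n hm j t + fun i => (0, ext n hm j z i) := by
  funext i
  by_cases h : (i : ℕ) / m = j
  · simp [ext, h]
  · simp [ext, h]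
    rfl

lemma ext_pair' (hm : 0 < m) (j : ℕ) (t : Fin m → ZMod 2 × ZMod 2) (z : Fin m → ZMod 2) :
    ext n hm j (t + fun i => (z i, 0)) = ext n hm j t + fun i => (ext n hm j z i, 0) := by
  funext i
  by_cases h : (i : ℕ) / m = j
  · simp [ext, h]
  · simp [ext, h]
    rfl

/-- explicit form -/
theorem corner_rel (hm : 0 < m) (hmn : 0 < n / m) (r : ℕ)
    (hr : ∀ B : Finset ((Fin m → ZMod 2) × (Fin m → ZMod 2)), CFree B → B.card ≤ r)
    (F A : Finset ((Fin n → ZMod 2) × (Fin n → ZMod 2))) (ε : ℝ)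
    (hF : (bdp F : ℝ) ≤ ε * (4 * (n / m : ℕ)) * F.card) (hA : CFree A) :
    ((A ∩ F).card : ℝ) ≤ (r / (4 : ℝ) ^ m + ε) * F.card := by
  classical
  have hL : Fintype.card (ZMod 2 × ZMod 2) = 4 := by
    rw [Fintype.card_prod, ZMod.card]
  have h := rel (F.map (wd n).toEmbedding) (A.map (wd n).toEmbedding) hm hmn r (by
    intro j hj z
    have h1 : CF (univ.filter fun t : Fin m → ZMod 2 × ZMod 2 =>
        z + ext n hm j t ∈ A.map (wd n).toEmbedding) := by
      intro t u h1 h2 h3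
      rw [mem_filter] at h1 h2 h3
      rw [ext_pair, ← add_assoc] at h2
      rw [ext_pair', ← add_assoc] at h3
      exact ext_eq_zero hm hj (cf_map hA _ _ h1.2 h2.2 h3.2)
    have h2 := hr _ (cf_symm h1)
    rwa [card_map] at h2) ε (by
    rw [← bdp_eq, hL, card_map]
    push_cast
    exact hF)
  rw [← map_inter, card_map, card_map, hL] at h
  push_cast at h
  exact h

lemma corner_lineFree {A : Finset (Fin n → ZMod 2 × ZMod 2)} (hA : CF A) :
    LineFree (A : Set (Fin n → ZMod 2 × ZMod 2)) := by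
  intro u hu
  obtain ⟨i0, hi0⟩ := hu
  by_contra hcon
  push Not at hcon
  have h := hA (pt u (0, 0)) (fun i => if u i = none then 1 else 0) (hcon _) (by
    have e : pt u ((0, 0) : ZMod 2 × ZMod 2) +
        (fun i => ((0 : ZMod 2), if u i = none then (1 : ZMod 2) else 0)) = pt u (0, 1) := by
      funext i
      simp only [Pi.add_apply, pt]
      cases hi : u i <;> simp
    rw [e]
    exact hcon _) (by
    have e : pt u ((0, 0) : ZMod 2 × ZMod 2) +
        (fun i => ((if u i = none then (1 : ZMod 2) else 0), (0 : ZMod 2))) = pt u (1, 0) := by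
      funext i
      simp only [Pi.add_apply, pt]
      cases hi : u i <;> simp
    rw [e]
    exact hcon _)
  have := congrFun h i0
  simp [hi0] at this

/-- qualitative form -/
theorem corner_c (δ : ℝ) (hδ : 0 < δ) :
    ∃ c : ℝ, 0 < c ∧ ∃ N₀ : ℕ, ∀ n : ℕ, N₀ ≤ n →
      ∀ F A : Finset ((Fin n → ZMod 2) × (Fin n → ZMod 2)),
        (bdp F : ℝ) ≤ c * n * F.card → CFree A → ((A ∩ F).card : ℝ) ≤ δ * F.card := by
  classical
  have hL : Fintype.card (ZMod 2 × ZMod 2) = 4 := by
    rw [Fintype.card_prod, ZMod.card]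
  obtain ⟨N, hN⟩ := density_hales_jewett (ZMod 2 × ZMod 2) (δ / 2) (half_pos hδ)
  obtain ⟨m, hmdef⟩ : ∃ m : ℕ, m = max N 1 := ⟨_, rfl⟩
  have hm1 : 1 ≤ m := by rw [hmdef]; exact le_max_right _ _
  have hmN : N ≤ m := by rw [hmdef]; exact le_max_left _ _
  have hm0 : (0 : ℝ) < (m : ℝ) := by exact_mod_cast hm1
  refine ⟨δ / 2 * (4 : ℕ) / (2 * m), by positivity, m, fun n hmn F A hF hA => ?_⟩
  have hJ : 0 < n / m := (Nat.one_le_div_iff (by omega)).2 hmn
  have h4 := corner_rel hm1 hJ ⌊δ / 2 * (4 : ℝ) ^ m⌋₊ (by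
    intro B hB
    apply Nat.le_floor
    have h5 := hN (Fin m) (by rw [Fintype.card_fin]; exact hmN)
      ((B.map (wd m).toEmbedding : Finset (Fin m → ZMod 2 × ZMod 2)) : Set _)
      (corner_lineFree (cf_map hB))
    have h6 := card_eq m (B.map (wd m).toEmbedding)
    have h7 : ((4 : ℕ) : ℝ) = 4 := by norm_num
    rw [card_map, hL, h7] at h6
    rw [h6]
    exact mul_le_mul_of_nonneg_right h5.le (by positivity)) F A (δ / 2) (by
    refine hF.trans (mul_le_mul_of_nonneg_right ?_ (Nat.cast_nonneg _))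
    have := blocks_real 4 m n hm1 hmn (δ / 2) (half_pos hδ).le
    push_cast at this ⊢
    exact this) hA
  have h6 : ((⌊δ / 2 * (4 : ℝ) ^ m⌋₊ : ℕ) : ℝ) / (4 : ℝ) ^ m ≤ δ / 2 := by
    rw [div_le_iff₀ (by positivity)]
    exact Nat.floor_le (by positivity)
  have h7 : (((⌊δ / 2 * (4 : ℝ) ^ m⌋₊ : ℕ) : ℝ) / (4 : ℝ) ^ m + δ / 2) * (F.card : ℝ) ≤
      δ * F.card := mul_le_mul_of_nonneg_right (by linarith) (Nat.cast_nonneg _)
  linarith

/-- degree -/
theorem corner_deg (F : Finset ((Fin n → ZMod 2) × (Fin n → ZMod 2))) (D I : ℕ)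
    (g : Fin I → ((Fin n → ZMod 2) × (Fin n → ZMod 2)) → ℝ) (T : Fin I → Finset (Fin n))
    (hg : ∀ t, (T t).card ≤ D ∧ ∀ a b : (Fin n → ZMod 2) × (Fin n → ZMod 2),
      (∀ i ∈ T t, a.1 i = b.1 i ∧ a.2 i = b.2 i) → g t a = g t b)
    (hF : ∀ a, ∑ t, g t a = if a ∈ F then 1 else 0) : bdp F ≤ 4 * D * F.card := by
  classical
  have hL : Fintype.card (ZMod 2 × ZMod 2) = 4 := by
    rw [Fintype.card_prod, ZMod.card]
  rw [bdp_eq]
  have h := bdy_le (F.map (wd n).toEmbedding) D (by
    have h1 : (fun w => if w ∈ F.map (wd n).toEmbedding then (1 : ℝ) else 0)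
        = ∑ t, fun w => g t ((wd n).symm w) := by
      funext w
      rw [Finset.sum_apply, hF]
      exact if_congr mem_map_equiv rfl rfl
    rw [h1]
    refine Submodule.sum_mem _ fun t _ => Submodule.subset_span ⟨T t, ?_, fun x y hxy => ?_⟩
    · rw [inter_univ]
      exact Nat.lt_succ_of_le (hg t).1
    · refine (hg t).2 _ _ fun i hi => ?_
      have := hxy i hi
      exact ⟨congrArg Prod.fst this, congrArg Prod.snd this⟩)
  rw [hL, card_map] at h
  exact h

/-- the graph of the identity -/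
theorem corner_graph (n : ℕ) : ∃ F : Finset ((Fin n → ZMod 2) × (Fin n → ZMod 2)),
    F.card = 2 ^ n ∧ CFree F ∧ bdp F = 2 * n * F.card := by
  classical
  obtain ⟨F, hF⟩ : ∃ F : Finset ((Fin n → ZMod 2) × (Fin n → ZMod 2)),
    F = univ.filter fun a => a.1 = a.2 := ⟨_, rfl⟩
  have hmem : ∀ a, a ∈ F ↔ a.1 = a.2 := by
    intro a; rw [hF, mem_filter]; exact and_iff_right (mem_univ _)
  refine ⟨F, ?_, ?_, ?_⟩
  · have : F = (univ : Finset (Fin n → ZMod 2)).image fun x => (x, x) := by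
      ext ⟨x, y⟩
      rw [hmem, mem_image]
      constructor
      · rintro h
        have h' : x = y := h
        subst h'
        exact ⟨x, mem_univ _, rfl⟩
      · rintro ⟨z, _, h⟩
        rw [Prod.mk.injEq] at h
        rw [← h.1, ← h.2]
    rw [this, card_image_of_injective _ (fun x y h => congrArg Prod.fst h), card_univ,
      Fintype.card_fun, Fintype.card_fin, ZMod.card]
  · intro x y z h1 h2 _
    rw [hmem] at h1 h2
    simp only at h1 h2
    rw [h1] at h2
    simpa using h2.symm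
  · have hset : bdp F = (F ×ˢ ((univ : Finset (Fin n)) ×ˢ
        ((univ : Finset (ZMod 2 × ZMod 2)).filter fun s => s.1 ≠ s.2))).card := by
      rw [bdp]
      congr 1
      ext ⟨a, i, s⟩
      rw [mem_filter, mem_product, mem_product, mem_product, mem_product, mem_filter]
      simp only [mem_univ, true_and, and_true]
      refine and_congr_right fun ha => ?_
      rw [hmem] at ha ⊢
      simp only
      rw [ha, not_iff_not]
      constructor
      · intro h
        have := congrFun h i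
        simpa using this
      · intro h
        rw [h]
    rw [hset, card_product, card_product, card_univ, Fintype.card_fin]
    have : ((univ : Finset (ZMod 2 × ZMod 2)).filter fun s => s.1 ≠ s.2).card = 2 := by decide
    rw [this]
    ring

end Pool.Agent.N389.RB
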