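import Pool.Agent.N389.RB.Stein
import Pool.Agent.Helper868.DHJ

/-! # Progression-free sets inside sets with small boundary

The lemmas `ext_add`, `ext_smul`, `ext_eq_zero`, `slice_free`, `lineFree`, `card_eq` are those of the
hand-in `MP_b30443_co.ConstantDepthCircuits` (helper381). -/

set_option autoImplicit false

namespace Pool.Agent.N389.RB

open Finset hiding ext dens
open Function
open Pool.Agent.N381.AC (ext)
open Pool.Agent.Helper868.DHJ (LineFree dens pt ind av av_eq_sum density_hales_jewett)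

/-- no progression with nonzero difference in `{0,1}^n` -/
def BAP (k : ℕ) {p n : ℕ} (A : Finset (Fin n → ZMod p)) : Prop :=
  ∀ x y : Fin n → ZMod p, (∀ i, y i = 0 ∨ y i = 1) → (∀ j : ℕ, j < k → x + j • y ∈ A) → y = 0

section

variable {p : ℕ}

theorem ext_add {n m : ℕ} (hm : 0 < m) (j : ℕ) (s t : Fin m → ZMod p) :
    ext n hm j (s + t) = ext n hm j s + ext n hm j t := by
  funext i
  by_cases h : (i : ℕ) / m = j <;> simp [ext, h]

theorem ext_smul {n m : ℕ} (hm : 0 < m) (j : ℕ) (a : ℕ) (t : Fin m → ZMod p) :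
    ext n hm j (a • t) = a • ext n hm j t := by
  funext i
  by_cases h : (i : ℕ) / m = j <;> simp [ext, h]

theorem ext_eq_zero {n m : ℕ} {L : Type} [AddCommGroup L] (hm : 0 < m) {j : ℕ} (hj : j < n / m)
    {s : Fin m → L} (h : ext n hm j s = 0) : s = 0 := by
  funext t
  have hlt : j * m + t < n := by
    have h1 : (j + 1) * m ≤ n / m * m := Nat.mul_le_mul_right _ hj
    have h2 := Nat.div_mul_le_self n m
    have h3 := t.2
    have h4 : (j + 1) * m = j * m + m := by ring
    omega
  have h1 := congrFun h ⟨j * m + t, hlt⟩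
  unfold ext at h1
  have e1 : (j * m + (t : ℕ)) / m = j := by
    rw [mul_comm, Nat.mul_add_div hm, Nat.div_eq_of_lt t.2, add_zero]
  have e2 : (j * m + (t : ℕ)) % m = t := by
    rw [mul_comm, Nat.mul_add_mod, Nat.mod_eq_of_lt t.2]
  simp only [e1, if_true, Pi.zero_apply] at h1
  have e3 : (⟨(j * m + (t : ℕ)) % m, Nat.mod_lt _ hm⟩ : Fin m) = t := Fin.ext e2
  rw [e3] at h1
  exact h1

theorem slice_free {n m k : ℕ} (hm : 0 < m) (Qn : (Fin n → ZMod p) → Prop)
    (Qm : (Fin m → ZMod p) → Prop) (j : ℕ) (hj : j < n / m)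
    (hQ : ∀ y, Qm y → Qn (ext n hm j y)) (A : Finset (Fin n → ZMod p))
    (hA : ∀ x y, Qn y → (∀ i : ℕ, i < k → x + i • y ∈ A) → y = 0)
    (z : Fin n → ZMod p) (B : Finset (Fin m → ZMod p)) (hB : ∀ t, t ∈ B ↔ z + ext n hm j t ∈ A)
    (x y : Fin m → ZMod p) (hy : Qm y) (h : ∀ i : ℕ, i < k → x + i • y ∈ B) : y = 0 := by
  apply ext_eq_zero hm hj
  apply hA (z + ext n hm j x) _ (hQ y hy)
  intro i hi
  have h1 := (hB _).1 (h i hi)
  rw [ext_add, ext_smul, ← add_assoc] at h1
  exact h1

/-- explicit form -/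
theorem relative {n m k r : ℕ} [NeZero p] (hm : 0 < m) (hmn : 0 < n / m)
    (Qn : (Fin n → ZMod p) → Prop) (Qm : (Fin m → ZMod p) → Prop)
    (hQ : ∀ j y, Qm y → Qn (ext n hm j y))
    (hr : ∀ B : Finset (Fin m → ZMod p),
      (∀ x y, Qm y → (∀ i : ℕ, i < k → x + i • y ∈ B) → y = 0) → B.card ≤ r)
    (F A : Finset (Fin n → ZMod p)) (ε : ℝ)
    (hF : (bdy F : ℝ) ≤ ε * (p * (n / m : ℕ)) * F.card)
    (hA : ∀ x y, Qn y → (∀ i : ℕ, i < k → x + i • y ∈ A) → y = 0) :
    ((A ∩ F).card : ℝ) ≤ (r / (p : ℝ) ^ m + ε) * F.card := by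
  classical
  have h := rel F A hm hmn r (fun j hj z => hr _ (by
    intro x y hy h
    exact slice_free hm Qn Qm j hj (hQ j) A hA z _ (fun t => by rw [mem_filter]; simp) x y hy h))
    ε (by rw [ZMod.card]; exact hF)
  rw [ZMod.card] at h
  exact h

theorem lineFree {k n : ℕ} (hp : p.Prime) {A : Finset (Fin n → ZMod p)} (hA : BAP k A) :
    LineFree (A : Set (Fin n → ZMod p)) := by
  intro u hu
  have : Fact p.Prime := ⟨hp⟩
  obtain ⟨i0, hi0⟩ := hu
  by_contra hcon
  push Not at hcon
  have h := hA (pt u 0) (fun i => if u i = none then 1 else 0) (fun i => by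
    by_cases h : u i = none <;> simp [h]) (by
    intro j _
    have e : pt u 0 + j • (fun i => if u i = none then (1 : ZMod p) else 0) =
        pt u (j : ZMod p) := by
      funext i
      simp only [Pi.add_apply, Pi.smul_apply, pt]
      cases hi : u i <;> simp
    rw [e]
    exact hcon _)
  have := congrFun h i0
  simp [hi0] at this

theorem card_eq {L : Type} [Fintype L] [Nonempty L] (n : ℕ) (A : Finset (Fin n → L)) :
    (A.card : ℝ) = dens (A : Set (Fin n → L)) * (Fintype.card L : ℝ) ^ n := by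
  classical
  unfold dens
  rw [av_eq_sum]
  have h1 : ∑ x, ind (A : Set (Fin n → L)) x = A.card := by
    have : ∀ x, ind (A : Set (Fin n → L)) x = if x ∈ A then 1 else 0 := by
      intro x
      by_cases hx : x ∈ A <;> simp [ind, hx]
    simp [this]
  have h2 : (Fintype.card (Fin n → L) : ℝ) = (Fintype.card L : ℝ) ^ n := by
    rw [Fintype.card_fun, Fintype.card_fin]
    push_cast
    rfl
  have hp : (0 : ℝ) < Fintype.card L := by
    have : 0 < Fintype.card L := Fintype.card_pos
    exact_mod_cast this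
  rw [h1, h2]
  field_simp

/-- the arithmetic of the blocks -/
lemma blocks_real (q m n : ℕ) (hm : 1 ≤ m) (hmn : m ≤ n) (ε : ℝ) (hε : 0 ≤ ε) :
    (ε * q / (2 * m)) * n ≤ ε * (q * (n / m : ℕ)) := by
  have hm0 : (0 : ℝ) < m := by exact_mod_cast hm
  have h1 : n < m * (n / m + 1) := Nat.lt_mul_div_succ n (by omega)
  have hJ : 1 ≤ n / m := (Nat.one_le_div_iff (by omega)).2 hmn
  have h2 : n ≤ 2 * m * (n / m) := by nlinarith
  have h3 : (n : ℝ) ≤ 2 * m * (n / m : ℕ) := by exact_mod_cast h2
  calc (ε * q / (2 * m)) * n ≤ (ε * q / (2 * m)) * (2 * m * (n / m : ℕ)) :=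
        mul_le_mul_of_nonneg_left h3 (by positivity)
    _ = ε * (q * (n / m : ℕ)) := by field_simp

/-- the qualitative form -/
theorem relative_c [NeZero p] (hp : p.Prime) (δ : ℝ) (hδ : 0 < δ) :
    ∃ c : ℝ, 0 < c ∧ ∃ N₀ : ℕ, ∀ k n : ℕ, N₀ ≤ n → ∀ F A : Finset (Fin n → ZMod p),
      (bdy F : ℝ) ≤ c * n * F.card → BAP k A → ((A ∩ F).card : ℝ) ≤ δ * F.card := by
  classical
  obtain ⟨N, hN⟩ := density_hales_jewett (ZMod p) (δ / 2) (half_pos hδ)
  obtain ⟨m, hmdef⟩ : ∃ m : ℕ, m = max N 1 := ⟨_, rfl⟩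
  have hm1 : 1 ≤ m := by rw [hmdef]; exact le_max_right _ _
  have hmN : N ≤ m := by rw [hmdef]; exact le_max_left _ _
  have hp0 : (0 : ℝ) < (p : ℝ) := by exact_mod_cast hp.pos
  have hm0 : (0 : ℝ) < (m : ℝ) := by exact_mod_cast hm1
  refine ⟨δ / 2 * p / (2 * m), by positivity, m, fun k n hmn F A hF hA => ?_⟩
  have hJ : 0 < n / m := (Nat.one_le_div_iff (by omega)).2 hmn
  have h4 := relative (p := p) (k := k) (r := ⌊δ / 2 * (p : ℝ) ^ m⌋₊) hm1 hJ
      (fun y : Fin n → ZMod p => ∀ i, y i = 0 ∨ y i = 1)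
      (fun y : Fin m → ZMod p => ∀ i, y i = 0 ∨ y i = 1) (by
        intro j y hy i
        by_cases h : (i : ℕ) / m = j
        · have e : ext n hm1 j y i = y ⟨(i : ℕ) % m, Nat.mod_lt _ hm1⟩ := by simp [ext, h]
          rw [e]
          exact hy _
        · left
          simp [ext, h]) (by
        intro B hB
        apply Nat.le_floor
        have h5 := hN (Fin m) (by rw [Fintype.card_fin]; exact hmN) (B : Set (Fin m → ZMod p))
          (lineFree (k := k) hp hB)
        rw [card_eq, ZMod.card]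
        exact mul_le_mul_of_nonneg_right h5.le (by positivity)) F A (δ / 2) (by
        refine hF.trans (mul_le_mul_of_nonneg_right ?_ (Nat.cast_nonneg _))
        exact blocks_real p m n hm1 hmn (δ / 2) (half_pos hδ).le) hA
  have h6 : ((⌊δ / 2 * (p : ℝ) ^ m⌋₊ : ℕ) : ℝ) / (p : ℝ) ^ m ≤ δ / 2 := by
    rw [div_le_iff₀ (by positivity)]
    exact Nat.floor_le (by positivity)
  have h7 : (((⌊δ / 2 * (p : ℝ) ^ m⌋₊ : ℕ) : ℝ) / (p : ℝ) ^ m + δ / 2) * (F.card : ℝ) ≤
      δ * F.card := mul_le_mul_of_nonneg_right (by linarith) (Nat.cast_nonneg _)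
  linarith

/-- the product set -/
theorem box [NeZero p] (k n : ℕ) (hk : 2 ≤ k) (hkp : k ≤ p) (hp : p.Prime) :
    ∃ F : Finset (Fin n → ZMod p), F.Nonempty ∧
      (∀ x y : Fin n → ZMod p, (∀ j : ℕ, j < k → x + j • y ∈ F) → y = 0) ∧
      bdy F = (p - k + 1) * n * F.card := by
  classical
  have : Fact p.Prime := ⟨hp⟩
  refine ⟨univ.filter fun x => ∀ i, (x i).val < k - 1, ⟨0, ?_⟩, ?_, ?_⟩
  · rw [mem_filter]
    exact ⟨mem_univ _, fun i => by simp; omega⟩
  · intro x y h
    funext i
    by_contra hyi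
    have h1 : ∀ j : ℕ, j < k → (x i + j • y i).val < k - 1 := by
      intro j hj
      exact (mem_filter.1 (h j hj)).2 i
    have h2 : (range k).card ≤ (range (k - 1)).card := by
      refine card_le_card_of_injOn (fun j => (x i + j • y i).val) ?_ ?_
      · intro j hj
        rw [mem_coe, mem_range] at hj ⊢
        exact h1 j hj
      · intro j hj j' hj' hjj
        rw [mem_coe, mem_range] at hj hj'
        have h3 := ZMod.val_injective p hjj
        rw [add_right_inj, nsmul_eq_mul, nsmul_eq_mul] at h3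
        have h4 := mul_right_cancel₀ hyi h3
        rw [ZMod.natCast_eq_natCast_iff'] at h4
        rw [Nat.mod_eq_of_lt (by omega), Nat.mod_eq_of_lt (by omega)] at h4
        exact h4
    rw [card_range, card_range] at h2
    omega
  · have hc : (univ.filter fun s : ZMod p => ¬ s.val < k - 1).card = p - k + 1 := by
      have h1 := card_filter_add_card_filter_not (s := (univ : Finset (ZMod p)))
        (fun s : ZMod p => s.val < k - 1)
      have h2 : (univ.filter fun s : ZMod p => s.val < k - 1).card = k - 1 := by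
        refine Eq.trans ?_ (card_range (k - 1))
        refine card_nbij (fun s => s.val) ?_ ?_ ?_
        · intro s hs
          rw [mem_coe, mem_filter] at hs
          rw [mem_coe, mem_range]
          exact hs.2
        · intro s _ t _ hst
          exact ZMod.val_injective p hst
        · intro a ha
          rw [mem_coe, mem_range] at ha
          refine ⟨(a : ZMod p), ?_, ZMod.val_natCast_of_lt (by omega)⟩
          rw [mem_coe, mem_filter, ZMod.val_natCast_of_lt (by omega)]
          exact ⟨mem_univ _, ha⟩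
      rw [h2, card_univ, ZMod.card] at h1
      omega
    obtain ⟨F, hFdef⟩ : ∃ F : Finset (Fin n → ZMod p),
      F = univ.filter fun x => ∀ i, (x i).val < k - 1 := ⟨_, rfl⟩
    rw [← hFdef, bdy_eq]
    have h1 : ∀ i, lv F i = F.card * (p - k + 1) := by
      intro i
      rw [← hc, lv, ← card_product]
      congr 1
      ext ⟨x, s⟩
      rw [mem_filter, mem_product, mem_product, mem_filter]
      simp only [mem_univ, and_true, true_and]
      refine and_congr_right fun hx => ?_
      rw [hFdef, mem_filter] at hx ⊢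
      rw [not_and]
      constructor
      · intro h hs
        refine h (mem_univ _) fun i' => ?_
        rcases eq_or_ne i' i with rfl | hii
        · rw [update_self]; exact hs
        · rw [update_of_ne hii]; exact hx.2 i'
      · intro h _ h2
        have := h2 i
        rw [update_self] at this
        exact h this
    rw [sum_congr rfl fun i _ => h1 i, sum_const, card_univ, Fintype.card_fin, smul_eq_mul]
    ring

end

end Pool.Agent.N389.RB
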