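import Pool.Agent.N381.AC.Rel

/-! # Relative density inside sets of words with small boundary -/

set_option autoImplicit false

namespace Pool.Agent.N389.RB

open Finset hiding ext
open Function
open Pool.Agent.N381.AC
open Pool.Agent.Y347.CO (posBlock posBlock_card)

section

variable {n : ℕ} {L : Type} [Fintype L] [DecidableEq L]

/-- the pairs which leave `F` in the direction `i` -/
def lv (F : Finset (Fin n → L)) (i : Fin n) : ℕ :=
  ((F ×ˢ (univ : Finset L)).filter fun q => update q.1 i q.2 ∉ F).card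

/-- the boundary -/
def bdy (F : Finset (Fin n → L)) : ℕ :=
  ((F ×ˢ ((univ : Finset (Fin n)) ×ˢ (univ : Finset L))).filter
    fun q => update q.1 q.2.1 q.2.2 ∉ F).card

lemma bdy_eq (F : Finset (Fin n → L)) : bdy F = ∑ i, lv F i := by
  classical
  rw [bdy, card_filter, sum_product]
  have h1 : ∀ i, lv F i = ∑ x ∈ F, ∑ s : L, if update x i s ∉ F then 1 else 0 := by
    intro i
    rw [lv, card_filter, sum_product]
  have h2 : ∑ i, lv F i = ∑ x ∈ F, ∑ i, ∑ s : L, if update x i s ∉ F then 1 else 0 := by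
    rw [sum_congr rfl fun i _ => h1 i, sum_comm]
  rw [h2]
  refine sum_congr rfl fun x _ => ?_
  exact sum_product (univ : Finset (Fin n)) (univ : Finset L)
    (fun t => if update x t.1 t.2 ∉ F then 1 else 0)

omit [DecidableEq L] in
lemma avg (i : Fin n) (g : L → ℕ) :
    Fintype.card L * ∑ y : Fin n → L, g (y i) = Fintype.card L ^ n * ∑ s, g s := by
  classical
  have h1 : ∑ z : (Fin n → L) × L, g (z.1 i) = ∑ z : (Fin n → L) × L, g z.2 := by
    refine Fintype.sum_bijective (fun z : (Fin n → L) × L => (update z.1 i z.2, z.1 i)) ?_ _ _ ?_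
    · refine Involutive.bijective ?_
      rintro ⟨y, s⟩
      simp only [update_self, update_idem, update_eq_self]
    · rintro ⟨y, s⟩
      rfl
  rw [Fintype.sum_prod_type, Fintype.sum_prod_type] at h1
  simp only [sum_const, card_univ, smul_eq_mul] at h1
  rw [← mul_sum, Fintype.card_pi, prod_const, card_univ, Fintype.card_fin] at h1
  exact h1

lemma ch_eq (F : Finset (Fin n → L)) (i : Fin n) :
    Fintype.card L * ch F i = Fintype.card L ^ n * lv F i := by
  classical
  have h1 : ch F i = ∑ x ∈ F, ∑ y : Fin n → L, if update x i (y i) ∉ F then 1 else 0 := by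
    rw [ch, card_filter, Fintype.sum_prod_type, ← sum_filter_add_sum_filter_not univ (fun x => x ∈ F)]
    have h2 : ∑ x ∈ univ.filter (fun x : Fin n → L => ¬ x ∈ F), ∑ y : Fin n → L,
        (if (x, y).1 ∈ F ∧ update (x, y).1 i ((x, y).2 i) ∉ F then 1 else 0) = 0 := by
      refine sum_eq_zero fun x hx => sum_eq_zero fun y _ => ?_
      rw [if_neg]
      rintro ⟨h, _⟩
      exact (mem_filter.1 hx).2 h
    rw [h2, add_zero]
    have e : univ.filter (fun x : Fin n → L => x ∈ F) = F := by ext x; simp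
    rw [e]
    refine sum_congr rfl fun x hx => sum_congr rfl fun y _ => ?_
    simp [hx]
  have h3 : lv F i = ∑ x ∈ F, ∑ s : L, if update x i s ∉ F then 1 else 0 := by
    rw [lv, card_filter, sum_product]
  rw [h1, h3, mul_sum, mul_sum]
  refine sum_congr rfl fun x _ => ?_
  exact avg i fun s => if update x i s ∉ F then 1 else 0

end

section rel

variable {n m : ℕ} {L : Type} [Fintype L] [DecidableEq L] [AddCommGroup L]

/-- relative density, with explicit loss -/
theorem rel (F A : Finset (Fin n → L)) (hm : 0 < m) (hk : 0 < n / m) (r : ℕ)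
    (hA : ∀ j < n / m, ∀ z, (univ.filter fun t : Fin m → L => z + ext n hm j t ∈ A).card ≤ r)
    (ε : ℝ) (hF : (bdy F : ℝ) ≤ ε * (Fintype.card L * (n / m : ℕ)) * F.card) :
    ((A ∩ F).card : ℝ) ≤ (r / (Fintype.card L : ℝ) ^ m + ε) * F.card := by
  classical
  have hq : 0 < Fintype.card L := Fintype.card_pos
  obtain ⟨q, hqdef⟩ : ∃ q : ℝ, q = (Fintype.card L : ℝ) := ⟨_, rfl⟩
  have hq0 : 0 < q := by rw [hqdef]; exact_mod_cast hq
  have hk' : (0 : ℝ) < (n / m : ℕ) := by exact_mod_cast hk
  have hdisj : ∀ j ∈ range (n / m), ∀ j' ∈ range (n / m), j ≠ j' →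
      Disjoint (posBlock n m j) (posBlock n m j') := by
    intro j _ j' _ hjj
    rw [disjoint_left]
    intro i hi hi'
    exact hjj ((mem_filter.1 hi).2.symm.trans (mem_filter.1 hi').2)
  have hsum : ∑ j ∈ range (n / m), ∑ i ∈ posBlock n m j, lv F i ≤ bdy F := by
    rw [bdy_eq, ← sum_biUnion hdisj]
    exact sum_le_sum_of_subset (subset_univ _)
  obtain ⟨j, hj, hjb⟩ : ∃ j ∈ range (n / m), (n / m) * ∑ i ∈ posBlock n m j, lv F i ≤ bdy F := by
    by_contra hcon
    push Not at hcon
    have h1 := sum_lt_sum_of_nonempty (nonempty_range_iff.2 hk.ne') hcon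
    rw [sum_const, card_range, smul_eq_mul, ← mul_sum] at h1
    exact absurd (Nat.mul_le_mul_left (n / m) hsum) (by omega)
  have h1 := inter_le F A (posBlock n m j)
  have h2 : Fintype.card L ^ m * (univ.filter fun z : (Fin n → L) × (Fin n → L) =>
      z.1 ∈ F ∧ rep (posBlock n m j) z.1 z.2 ∈ A).card ≤ F.card * (r * Fintype.card L ^ n) := by
    have h3 : (univ.filter fun z : (Fin n → L) × (Fin n → L) =>
        z.1 ∈ F ∧ rep (posBlock n m j) z.1 z.2 ∈ A).card =
        ∑ x ∈ F, (univ.filter fun y => rep (posBlock n m j) x y ∈ A).card := by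
      rw [card_filter, Fintype.sum_prod_type, ← sum_filter_add_sum_filter_not univ fun x => x ∈ F]
      have h4 : ∑ x ∈ univ.filter (fun x => x ∉ F), ∑ y : Fin n → L,
          (if (x, y).1 ∈ F ∧ rep (posBlock n m j) (x, y).1 (x, y).2 ∈ A then 1 else 0) = 0 := by
        apply sum_eq_zero
        intro x hx
        apply sum_eq_zero
        intro y _
        rw [if_neg]
        rintro ⟨h, -⟩
        exact (mem_filter.1 hx).2 h
      rw [h4, add_zero]
      have e : univ.filter (fun x => x ∈ F) = F := by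
        ext x
        simp
      rw [e]
      apply sum_congr rfl
      intro x hx
      rw [card_filter]
      apply sum_congr rfl
      intro y _
      simp [hx]
    rw [h3, mul_sum, ← smul_eq_mul, ← sum_const]
    exact sum_le_sum fun x _ => slice_le A hm j r (hA j (mem_range.1 hj)) x
  -- real numbers
  have h5 : q * ((∑ i ∈ posBlock n m j, ch F i : ℕ) : ℝ)
      = q ^ n * ((∑ i ∈ posBlock n m j, lv F i : ℕ) : ℝ) := by
    rw [hqdef]
    have : Fintype.card L * ∑ i ∈ posBlock n m j, ch F i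
        = Fintype.card L ^ n * ∑ i ∈ posBlock n m j, lv F i := by
      rw [mul_sum, mul_sum]
      exact sum_congr rfl fun i _ => ch_eq F i
    exact_mod_cast this
  have h6 : ((n / m : ℕ) : ℝ) * ((∑ i ∈ posBlock n m j, lv F i : ℕ) : ℝ) ≤ bdy F := by
    exact_mod_cast hjb
  have h7 : ((∑ i ∈ posBlock n m j, lv F i : ℕ) : ℝ) ≤ ε * q * F.card := by
    have h8 : ((∑ i ∈ posBlock n m j, lv F i : ℕ) : ℝ) * ((n / m : ℕ) : ℝ)
        ≤ (ε * q * F.card) * ((n / m : ℕ) : ℝ) := by
      rw [hqdef]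
      calc ((∑ i ∈ posBlock n m j, lv F i : ℕ) : ℝ) * ((n / m : ℕ) : ℝ)
          = ((n / m : ℕ) : ℝ) * ((∑ i ∈ posBlock n m j, lv F i : ℕ) : ℝ) := mul_comm _ _
        _ ≤ bdy F := h6
        _ ≤ ε * (Fintype.card L * (n / m : ℕ)) * F.card := hF
        _ = _ := by ring
    exact le_of_mul_le_mul_right h8 hk'
  have h9 : ((∑ i ∈ posBlock n m j, ch F i : ℕ) : ℝ) ≤ ε * q ^ n * F.card := by
    have h10 : q * ((∑ i ∈ posBlock n m j, ch F i : ℕ) : ℝ) ≤ q * (ε * q ^ n * F.card) := by
      rw [h5]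
      calc q ^ n * ((∑ i ∈ posBlock n m j, lv F i : ℕ) : ℝ) ≤ q ^ n * (ε * q * F.card) :=
            mul_le_mul_of_nonneg_left h7 (by positivity)
        _ = _ := by ring
    exact le_of_mul_le_mul_left h10 hq0
  have h1' : (q ^ n : ℝ) * (A ∩ F).card ≤
      ((univ.filter fun z : (Fin n → L) × (Fin n → L) =>
        z.1 ∈ F ∧ rep (posBlock n m j) z.1 z.2 ∈ A).card : ℝ) +
        ((∑ i ∈ posBlock n m j, ch F i : ℕ) : ℝ) := by
    rw [hqdef]
    exact_mod_cast h1
  have h2' : q ^ m * ((univ.filter fun z : (Fin n → L) × (Fin n → L) =>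
      z.1 ∈ F ∧ rep (posBlock n m j) z.1 z.2 ∈ A).card : ℝ) ≤ F.card * (r * q ^ n) := by
    rw [hqdef]
    exact_mod_cast h2
  have hqm : (0 : ℝ) < q ^ m := by positivity
  have hqn : (0 : ℝ) < q ^ n := by positivity
  have h11 : ((univ.filter fun z : (Fin n → L) × (Fin n → L) =>
      z.1 ∈ F ∧ rep (posBlock n m j) z.1 z.2 ∈ A).card : ℝ) ≤ r / q ^ m * F.card * q ^ n := by
    rw [← mul_le_mul_iff_right₀ hqm]
    refine h2'.trans (le_of_eq ?_)
    field_simp
  have h12 : q ^ n * ((A ∩ F).card : ℝ) ≤ q ^ n * ((r / q ^ m + ε) * F.card) := by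
    calc q ^ n * ((A ∩ F).card : ℝ) ≤ r / q ^ m * F.card * q ^ n + ε * q ^ n * F.card := by linarith
      _ = _ := by ring
  rw [← hqdef]
  exact le_of_mul_le_mul_left h12 hqn

end rel

end Pool.Agent.N389.RB
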