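import Pool.Agent.N389.RB.Core

/-! # The boundary of sets of words of small degree -/

set_option autoImplicit false

namespace Pool.Agent.N389.RB

open Finset hiding ext
open Function

section

variable {n : ℕ} {L : Type}

/-- functions which are sums of functions that depend on few coordinates of `K` -/
def Ju (L : Type) {n : ℕ} (K : Finset (Fin n)) (D : ℕ) : Submodule ℝ ((Fin n → L) → ℝ) :=
  Submodule.span ℝ {g | ∃ T : Finset (Fin n), (T ∩ K).card < D ∧
    ∀ x y : Fin n → L, (∀ i ∈ T, x i = y i) → g x = g y}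

lemma ju_zero {K : Finset (Fin n)} {f : (Fin n → L) → ℝ} (h : f ∈ Ju L K 0) : f = 0 := by
  have : {g : (Fin n → L) → ℝ | ∃ T : Finset (Fin n), (T ∩ K).card < 0 ∧
    ∀ x y : Fin n → L, (∀ i ∈ T, x i = y i) → g x = g y} = ∅ := by
    ext g; simp
  rw [Ju, this, Submodule.span_empty, Submodule.mem_bot] at h
  exact h

variable [Fintype L]

/-- the average over the letter at `a` -/
noncomputable def Ea (a : Fin n) (f : (Fin n → L) → ℝ) : (Fin n → L) → ℝ :=
  fun x => (∑ s, f (update x a s)) / Fintype.card L

lemma Ea_update (a : Fin n) (f : (Fin n → L) → ℝ) (x : Fin n → L) (s : L) :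
    Ea a f (update x a s) = Ea a f x := by
  unfold Ea
  simp only [update_idem]

lemma swap_sum (a : Fin n) (F : (Fin n → L) → ℝ) :
    ∑ x : Fin n → L, ∑ s : L, F (update x a s) = Fintype.card L * ∑ x : Fin n → L, F x := by
  classical
  have h1 : ∑ z : (Fin n → L) × L, F (update z.1 a z.2) = ∑ z : (Fin n → L) × L, F z.1 := by
    refine Fintype.sum_bijective (fun z : (Fin n → L) × L => (update z.1 a z.2, z.1 a)) ?_ _ _ ?_
    · refine Involutive.bijective ?_
      rintro ⟨y, s⟩
      simp only [update_self, update_idem, update_eq_self]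
    · rintro ⟨y, s⟩
      rfl
  rw [Fintype.sum_prod_type, Fintype.sum_prod_type] at h1
  rw [h1]
  simp only [sum_const, card_univ, nsmul_eq_mul]
  rw [← mul_sum]

lemma u_mem (a : Fin n) (K : Finset (Fin n)) (D : ℕ) {f : (Fin n → L) → ℝ}
    (h : f ∈ Ju L (insert a K) D) : Ea a f ∈ Ju L K D := by
  induction h using Submodule.span_induction with
  | mem g hg =>
    obtain ⟨T, hT, hg⟩ := hg
    refine Submodule.subset_span ⟨T, ?_, fun x y hxy => ?_⟩
    · exact (card_le_card (inter_subset_inter_left (subset_insert a K))).trans_lt hT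
    · unfold Ea
      congr 1
      refine sum_congr rfl fun s _ => hg _ _ fun i hi => ?_
      rcases eq_or_ne i a with rfl | hia
      · simp
      · simp [hia, hxy i hi]
  | zero =>
    have : Ea a (0 : (Fin n → L) → ℝ) = 0 := by
      funext x; simp [Ea]
    rw [this]; exact zero_mem _
  | add f g _ _ hf hg =>
    have : Ea a (f + g) = Ea a f + Ea a g := by
      funext x
      simp only [Ea, Pi.add_apply, sum_add_distrib, add_div]
    rw [this]; exact add_mem hf hg
  | smul c f _ hf =>
    have : Ea a (c • f) = c • Ea a f := by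
      funext x
      simp only [Ea, Pi.smul_apply, smul_eq_mul, ← mul_sum, mul_div_assoc]
    rw [this]; exact Submodule.smul_mem _ c hf

lemma v_mem [Nonempty L] (a : Fin n) (K : Finset (Fin n)) (ha : a ∉ K) (D : ℕ)
    {f : (Fin n → L) → ℝ} (h : f ∈ Ju L (insert a K) (D + 1)) : f - Ea a f ∈ Ju L K D := by
  have hq : (Fintype.card L : ℝ) ≠ 0 := by
    have : 0 < Fintype.card L := Fintype.card_pos
    positivity
  induction h using Submodule.span_induction with
  | mem g hg =>
    obtain ⟨T, hT, hg⟩ := hg
    by_cases haT : a ∈ T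
    · refine Submodule.subset_span ⟨T, ?_, fun x y hxy => ?_⟩
      · have h1 : T ∩ insert a K = insert a (T ∩ K) := by
          rw [inter_insert_of_mem haT]
        rw [h1, card_insert_of_notMem (fun h2 => ha (mem_inter.1 h2).2)] at hT
        omega
      · have h1 : Ea a g x = Ea a g y := by
          unfold Ea
          congr 1
          refine sum_congr rfl fun s _ => hg _ _ fun i hi => ?_
          rcases eq_or_ne i a with rfl | hia
          · simp
          · simp [hia, hxy i hi]
        simp only [Pi.sub_apply]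
        rw [h1, hg x y hxy]
    · have : g - Ea a g = 0 := by
        funext x
        have h1 : ∀ s, g (update x a s) = g x := by
          intro s
          refine hg _ _ fun i hi => ?_
          have : i ≠ a := fun h => haT (h ▸ hi)
          simp [this]
        simp only [Pi.sub_apply, Ea, h1, sum_const, card_univ, nsmul_eq_mul, Pi.zero_apply]
        field_simp
        ring
      rw [this]; exact zero_mem _
  | zero =>
    have : (0 : (Fin n → L) → ℝ) - Ea a (0 : (Fin n → L) → ℝ) = 0 := by
      funext x; simp [Ea]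
    rw [this]; exact zero_mem _
  | add f g _ _ hf hg =>
    have : f + g - Ea a (f + g) = (f - Ea a f) + (g - Ea a g) := by
      funext x
      simp only [Ea, Pi.add_apply, Pi.sub_apply, sum_add_distrib, add_div]
      ring
    rw [this]; exact add_mem hf hg
  | smul c f _ hf =>
    have : c • f - Ea a (c • f) = c • (f - Ea a f) := by
      funext x
      simp only [Ea, Pi.smul_apply, Pi.sub_apply, smul_eq_mul, ← mul_sum, mul_div_assoc]
      ring
    rw [this]; exact Submodule.smul_mem _ c hf

/-- the energy in the direction `i` -/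
noncomputable def En (i : Fin n) (f : (Fin n → L) → ℝ) : ℝ :=
  ∑ x : Fin n → L, ∑ s : L, (f x - f (update x i s)) ^ 2

section split

variable [Nonempty L] (a : Fin n) (f : (Fin n → L) → ℝ)

lemma v_sum (x : Fin n → L) : ∑ s, (f - Ea a f) (update x a s) = 0 := by
  have hq : (Fintype.card L : ℝ) ≠ 0 := by
    have : 0 < Fintype.card L := Fintype.card_pos
    positivity
  simp only [Pi.sub_apply, sum_sub_distrib, Ea_update, sum_const, card_univ, nsmul_eq_mul]
  rw [Ea]
  field_simp
  ring

lemma norm_split : ∑ x, f x ^ 2 = ∑ x, Ea a f x ^ 2 + ∑ x, (f - Ea a f) x ^ 2 := by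
  have hq : (0 : ℝ) < Fintype.card L := by
    have : 0 < Fintype.card L := Fintype.card_pos
    positivity
  have h1 : ∑ x, Ea a f x * (f - Ea a f) x = 0 := by
    have h2 := swap_sum a (fun x => Ea a f x * (f - Ea a f) x)
    have h3 : ∑ x : Fin n → L, ∑ s : L, Ea a f (update x a s) * (f - Ea a f) (update x a s) = 0 := by
      refine sum_eq_zero fun x _ => ?_
      simp_rw [Ea_update]
      rw [← mul_sum, v_sum, mul_zero]
    rw [h3] at h2
    rcases mul_eq_zero.1 h2.symm with h4 | h4
    · exact absurd h4 hq.ne'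
    · exact h4
  have h2 : ∀ x, f x ^ 2 = Ea a f x ^ 2 + (f - Ea a f) x ^ 2 + 2 * (Ea a f x * (f - Ea a f) x) := by
    intro x
    simp only [Pi.sub_apply]
    ring
  rw [sum_congr rfl fun x _ => h2 x, sum_add_distrib, sum_add_distrib, ← mul_sum, h1]
  ring

lemma en_self : En a f = 2 * Fintype.card L * ∑ x, (f - Ea a f) x ^ 2 := by
  have h1 : ∀ (x : Fin n → L) (s : L), (f x - f (update x a s)) ^ 2
      = (f - Ea a f) x ^ 2 + (f - Ea a f) (update x a s) ^ 2
        - 2 * ((f - Ea a f) x * (f - Ea a f) (update x a s)) := by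
    intro x s
    simp only [Pi.sub_apply, Ea_update]
    ring
  rw [En]
  have h2 : ∑ x : Fin n → L, ∑ s : L, (f x - f (update x a s)) ^ 2
      = ∑ x : Fin n → L, ∑ _s : L, (f - Ea a f) x ^ 2
        + ∑ x : Fin n → L, ∑ s : L, (f - Ea a f) (update x a s) ^ 2
        - 2 * ∑ x : Fin n → L, ∑ s : L, (f - Ea a f) x * (f - Ea a f) (update x a s) := by
    rw [mul_sum, ← sum_add_distrib, ← sum_sub_distrib]
    refine sum_congr rfl fun x _ => ?_
    rw [mul_sum, ← sum_add_distrib, ← sum_sub_distrib]
    exact sum_congr rfl fun s _ => h1 x s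
  have h3 : ∑ x : Fin n → L, ∑ s : L, (f - Ea a f) x * (f - Ea a f) (update x a s) = 0 := by
    refine sum_eq_zero fun x _ => ?_
    rw [← mul_sum, v_sum, mul_zero]
  have h4 := swap_sum a (fun x => (f - Ea a f) x ^ 2)
  have h5 : ∑ x : Fin n → L, ∑ _s : L, (f - Ea a f) x ^ 2
      = Fintype.card L * ∑ x, (f - Ea a f) x ^ 2 := by
    simp only [sum_const, card_univ, nsmul_eq_mul]
    rw [← mul_sum]
  rw [h2, h3, h4, h5]
  ring

lemma en_other (i : Fin n) (hi : i ≠ a) : En i f = En i (Ea a f) + En i (f - Ea a f) := by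
  have hq : (0 : ℝ) < Fintype.card L := by
    have : 0 < Fintype.card L := Fintype.card_pos
    positivity
  have hcomm : ∀ (x : Fin n → L) (s t : L), update (update x a t) i s = update (update x i s) a t :=
    fun x s t => update_comm (Ne.symm hi) _ _ _
  have h1 : ∀ (x : Fin n → L) (s : L), (f x - f (update x i s)) ^ 2
      = (Ea a f x - Ea a f (update x i s)) ^ 2
        + ((f - Ea a f) x - (f - Ea a f) (update x i s)) ^ 2
        + 2 * ((Ea a f x - Ea a f (update x i s))
          * ((f - Ea a f) x - (f - Ea a f) (update x i s))) := by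
    intro x s
    simp only [Pi.sub_apply]
    ring
  have h2 : ∑ x : Fin n → L, ∑ s : L, (Ea a f x - Ea a f (update x i s))
          * ((f - Ea a f) x - (f - Ea a f) (update x i s)) = 0 := by
    rw [sum_comm]
    refine sum_eq_zero fun s _ => ?_
    have h3 := swap_sum a (fun x => (Ea a f x - Ea a f (update x i s))
          * ((f - Ea a f) x - (f - Ea a f) (update x i s)))
    have h4 : ∑ x : Fin n → L, ∑ t : L, (Ea a f (update x a t) - Ea a f (update (update x a t) i s))
          * ((f - Ea a f) (update x a t) - (f - Ea a f) (update (update x a t) i s)) = 0 := by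
      refine sum_eq_zero fun x _ => ?_
      simp_rw [hcomm, Ea_update]
      rw [← mul_sum, sum_sub_distrib, v_sum, v_sum, sub_zero, mul_zero]
    rw [h4] at h3
    rcases mul_eq_zero.1 h3.symm with h5 | h5
    · exact absurd h5 hq.ne'
    · exact h5
  rw [En, En, En]
  have h6 : ∑ x : Fin n → L, ∑ s : L, (f x - f (update x i s)) ^ 2
      = ∑ x : Fin n → L, ∑ s : L, (Ea a f x - Ea a f (update x i s)) ^ 2
        + ∑ x : Fin n → L, ∑ s : L, ((f - Ea a f) x - (f - Ea a f) (update x i s)) ^ 2
        + 2 * ∑ x : Fin n → L, ∑ s : L, (Ea a f x - Ea a f (update x i s))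
          * ((f - Ea a f) x - (f - Ea a f) (update x i s)) := by
    rw [mul_sum, ← sum_add_distrib, ← sum_add_distrib]
    refine sum_congr rfl fun x _ => ?_
    rw [mul_sum, ← sum_add_distrib, ← sum_add_distrib]
    exact sum_congr rfl fun s _ => h1 x s
  rw [h6, h2]
  ring

end split

/-- functions of small degree have small energy -/
lemma energy [Nonempty L] (K : Finset (Fin n)) : ∀ (D : ℕ) (f : (Fin n → L) → ℝ), f ∈ Ju L K D →
    ∑ i ∈ K, En i f ≤ 2 * Fintype.card L * ((D : ℝ) - 1) * ∑ x, f x ^ 2 := by
  have hq : (0 : ℝ) < Fintype.card L := by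
    have : 0 < Fintype.card L := Fintype.card_pos
    positivity
  induction K using Finset.induction_on with
  | empty =>
    intro D f hf
    rcases D with _ | D
    · rw [ju_zero hf]; simp
    · rw [sum_empty]
      push_cast
      have : (0 : ℝ) ≤ ∑ x, f x ^ 2 := sum_nonneg fun x _ => sq_nonneg _
      have h2 : (0 : ℝ) ≤ (D : ℝ) + 1 - 1 := by
        have := Nat.cast_nonneg (α := ℝ) D
        linarith
      positivity
  | insert a K ha ih =>
    intro D f hf
    rcases D with _ | D
    · rw [ju_zero hf]; simp [En]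
    have i1 := ih (D + 1) _ (u_mem a K (D + 1) hf)
    have i2 := ih D _ (v_mem a K ha D hf)
    rw [sum_insert ha, en_self, norm_split a f]
    have h1 : ∑ i ∈ K, En i f = ∑ i ∈ K, En i (Ea a f) + ∑ i ∈ K, En i (f - Ea a f) := by
      rw [← sum_add_distrib]
      exact sum_congr rfl fun i hi => en_other a f i fun h => ha (h ▸ hi)
    rw [h1]
    push_cast at i1 i2 ⊢
    nlinarith [i1, i2]

end

section

variable {n : ℕ} {L : Type} [Fintype L] [DecidableEq L]

/-- the energy of an indicator function -/
lemma en_ind (F : Finset (Fin n → L)) (i : Fin n) :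
    En i (fun x => if x ∈ F then (1 : ℝ) else 0) = 2 * lv F i := by
  classical
  have h1 : ∀ (x : Fin n → L) (s : L),
      ((if x ∈ F then (1 : ℝ) else 0) - (if update x i s ∈ F then (1 : ℝ) else 0)) ^ 2
      = (if x ∈ F ∧ update x i s ∉ F then (1 : ℝ) else 0)
        + (if x ∉ F ∧ update x i s ∈ F then (1 : ℝ) else 0) := by
    intro x s
    by_cases a1 : x ∈ F <;> by_cases a2 : update x i s ∈ F <;> simp [a1, a2]
  have h2 : ∑ x : Fin n → L, ∑ s : L, (if x ∈ F ∧ update x i s ∉ F then (1 : ℝ) else 0)
      = lv F i := by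
    rw [lv, card_filter, sum_product]
    push_cast
    rw [← sum_filter_add_sum_filter_not univ (fun x => x ∈ F)]
    have e0 : ∑ x ∈ univ.filter (fun x : Fin n → L => ¬ x ∈ F), ∑ s : L,
        (if x ∈ F ∧ update x i s ∉ F then (1 : ℝ) else 0) = 0 := by
      refine sum_eq_zero fun x hx => sum_eq_zero fun s _ => ?_
      rw [if_neg]
      rintro ⟨h, _⟩
      exact (mem_filter.1 hx).2 h
    have e : univ.filter (fun x : Fin n → L => x ∈ F) = F := by ext x; simp
    rw [e0, add_zero, e]
    refine sum_congr rfl fun x hx => sum_congr rfl fun s _ => ?_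
    simp [hx]
  have h3 : ∑ x : Fin n → L, ∑ s : L, (if x ∉ F ∧ update x i s ∈ F then (1 : ℝ) else 0)
      = ∑ x : Fin n → L, ∑ s : L, (if x ∈ F ∧ update x i s ∉ F then (1 : ℝ) else 0) := by
    rw [← Fintype.sum_prod_type', ← Fintype.sum_prod_type']
    refine Fintype.sum_bijective (fun z : (Fin n → L) × L => (update z.1 i z.2, z.1 i)) ?_ _ _ ?_
    · refine Involutive.bijective ?_
      rintro ⟨y, s⟩
      simp only [update_self, update_idem, update_eq_self]
    · rintro ⟨y, s⟩
      simp only [update_idem, update_eq_self]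
      exact if_congr and_comm rfl rfl
  rw [En]
  rw [sum_congr rfl fun x _ => sum_congr rfl fun s _ => h1 x s]
  simp_rw [sum_add_distrib]
  rw [h3, h2]
  ring

/-- the boundary of a set of degree at most `D` -/
theorem bdy_le [Nonempty L] (F : Finset (Fin n → L)) (D : ℕ)
    (hF : (fun x => if x ∈ F then (1 : ℝ) else 0) ∈ Ju L (univ : Finset (Fin n)) (D + 1)) :
    bdy F ≤ Fintype.card L * D * F.card := by
  classical
  have h1 := energy univ (D + 1) _ hF
  have h2 : ∑ i : Fin n, En i (fun x => if x ∈ F then (1 : ℝ) else 0) = 2 * bdy F := by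
    rw [bdy_eq]
    push_cast
    rw [mul_sum]
    exact sum_congr rfl fun i _ => en_ind F i
  have h3 : ∑ x : Fin n → L, (if x ∈ F then (1 : ℝ) else 0) ^ 2 = F.card := by
    have : ∀ x : Fin n → L, (if x ∈ F then (1 : ℝ) else 0) ^ 2 = if x ∈ F then (1 : ℝ) else 0 := by
      intro x; split_ifs <;> norm_num
    simp [this]
  rw [h2, h3] at h1
  push_cast at h1
  have h4 : (bdy F : ℝ) ≤ ((Fintype.card L * D * F.card : ℕ) : ℝ) := by
    push_cast
    linarith
  exact_mod_cast h4

end

end Pool.Agent.N389.RB
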